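import Mathlib
import Pool.Agent.Helper88.EL.Testable
import Pool.Agent.Helper88.EL.Fam
import Pool.Graph.R_pool_sql_team_seeded_3997aac3.Q138.GS.Fub

set_option autoImplicit false

/-!
# Effective Conjecture F for real multiples of integer polynomials: definitions and parts
-/

namespace Pool.Agent.Helper79.CF

open Finset Filter Topology MeasureTheory
open Pool.Agent.Helper88.EL (num Schnorr dgs ct dg Testable)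
open Pool.Agent.Y895.PM (U01)
open Pool.Agent.Q138.GS (th Sav)

/-- `t` is a real number with the binary digits `b` -/
def Digits (b : ℕ → Bool) (t : ℝ) : Prop := ∀ u, (num b u : ℝ) ≤ 2 ^ u * t ∧ 2 ^ u * t ≤ num b u + 1

/-- the integer part of `(1 + x / 2 ^ u) * P n` -/
def mv (P : ℕ → ℕ) (u x n : ℕ) : ℕ := ((2 ^ u + x) * P n) / 2 ^ u

/-- the next digits may change the integer part -/
def amb (P : ℕ → ℕ) (u x n : ℕ) : Bool := decide (2 ^ u ≤ ((2 ^ u + x) * P n) % 2 ^ u + P n)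

/-- approximately `j * log m` -/
def ell (j m : ℕ) : ℕ := ∑ a ∈ range ((j + 1) * m), (decide ((j + 1) ^ a ≤ m * j ^ a)).toNat

def JJ (P : ℕ → ℕ) (N : ℕ) : ℕ := ∑ n ∈ range (N + 1), (2 * P n + 2)

def UU (P : ℕ → ℕ) (N : ℕ) : ℕ := N + JJ P N

def WW (P : ℕ → ℕ) (s : ℕ → Bool) (N x : ℕ) : ℕ := ∑ n ∈ range N, (s (n + 1)).toNat *
  ((decide (mv P (UU P N) x (n + 1)).Prime).toNat * ell (JJ P N) (mv P (UU P N) x (n + 1)))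

def W0 (P : ℕ → ℕ) (s : ℕ → Bool) (N : ℕ) : ℕ := ∑ n ∈ range N, (s (n + 1)).toNat * JJ P N

def dev (P : ℕ → ℕ) (s : ℕ → Bool) (N x : ℕ) : ℕ :=
  (WW P s N x - W0 P s N) + (W0 P s N - WW P s N x)

def bad (P : ℕ → ℕ) (s : ℕ → Bool) (K N x : ℕ) : Bool :=
  decide (JJ P N * N < (Nat.log 2 N + 1) ^ K * dev P s N x) ||
    decide (∃ n < N, amb P (UU P N) x (n + 1) = true)

/-- the times -/
def sc (K a r : ℕ) : ℕ := 2 ^ a + 2 ^ a * r / (a + 1) ^ (K + 2)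

/-- the weighted sum for the multiplier `1 + t` -/
noncomputable def SS (P : ℕ → ℕ) (s : ℕ → Bool) (t : ℝ) (N : ℕ) : ℂ :=
  ∑ n ∈ Icc 1 N, (if s n = true then (1 : ℂ) else 0) * (th ⌊(1 + t) * (P n : ℝ)⌋₊ - 1)

/-- `P` agrees for large `n` with a polynomial of positive degree and positive leading coefficient -/
def IsPol (P : ℕ → ℕ) (Q : Polynomial ℝ) : Prop := 1 ≤ Q.natDegree ∧ 0 < Q.leadingCoeff ∧
  ∀ᶠ n : ℕ in atTop, (P n : ℝ) = Q.eval (n : ℝ)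

/-- the number of digits at the index `k = ⟨⟨i, K⟩, ⟨a, r⟩⟩` -/
def uI (p : ℕ → ℕ → ℕ) (k : ℕ) : ℕ :=
  UU (p k.unpair.1.unpair.1) (sc k.unpair.1.unpair.2 k.unpair.2.unpair.1 k.unpair.2.unpair.2)

/-- the bad set at the index `k = ⟨⟨i, K⟩, ⟨a, r⟩⟩` -/
def BI (p : ℕ → ℕ → ℕ) (s : ℕ → ℕ → Bool) (k x : ℕ) : Bool :=
  decide (k.unpair.2.unpair.2 ≤ (k.unpair.2.unpair.1 + 1) ^ (k.unpair.1.unpair.2 + 2)) &&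
  bad (p k.unpair.1.unpair.1) (s k.unpair.1.unpair.1) k.unpair.1.unpair.2
    (sc k.unpair.1.unpair.2 k.unpair.2.unpair.1 k.unpair.2.unpair.2) x

/-! ### parts -/

/-- TST -/
def S_TST : Prop := ∀ (u : ℕ → ℕ) (B : ℕ → ℕ → Bool), Computable u → Computable₂ B →
  Testable fun b => {k | (k + 1) ^ 2 * ct (u k) (B k) ≤ 2 ^ u k ∧ B k (num b (u k)) = true}.Finite

/-- CMP -/
def S_CMP : Prop := ∀ (p : ℕ → ℕ → ℕ) (s : ℕ → ℕ → Bool), Computable₂ p → Computable₂ s →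
  Computable (uI p) ∧ Computable₂ (BI p s)

/-- ELL -/
def S_ELL : Prop := ∀ j m : ℕ, 1 ≤ j → 1 ≤ m → |(ell j m : ℝ) - j * Real.log m| ≤ Real.log m + 1

/-- FLR -/
def S_FLR : Prop := ∀ (P : ℕ → ℕ) (u x n : ℕ) (t : ℝ), (x : ℝ) ≤ 2 ^ u * t → 2 ^ u * t ≤ x + 1 →
  amb P u x n = false → ⌊(1 + t) * (P n : ℝ)⌋₊ = mv P u x n

/-- AMB -/
def S_AMB : Prop := ∀ (P : ℕ → ℕ) (u N : ℕ),
  ct u (fun x => decide (∃ n < N, amb P u x (n + 1) = true)) ≤ ∑ n ∈ range N, P (n + 1)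

/-- DEV -/
def S_DEV : Prop := ∀ (P : ℕ → ℕ) (s : ℕ → Bool) (N x : ℕ) (t : ℝ), (x : ℝ) ≤ 2 ^ UU P N * t →
  2 ^ UU P N * t ≤ x + 1 → 0 ≤ t → t ≤ 1 → (∀ n < N, amb P (UU P N) x (n + 1) = false) →
  |(dev P s N x : ℝ) / JJ P N - ‖SS P s t N‖| ≤ 1

/-- L2 -/
def S_L2 : Prop := ∀ (P : ℕ → ℕ) (Q : Polynomial ℝ), IsPol P Q → ∀ K : ℕ, ∃ C : ℝ, 0 ≤ C ∧
  ∀ N : ℕ, 2 ≤ N → ∀ s : ℕ → Bool,
    ∫⁻ t in Set.Icc (0 : ℝ) 1, ‖SS P s t N‖ₑ ^ 2 ≤ ENNReal.ofReal (C * (N : ℝ) ^ 2 / (Real.log N) ^ K)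

/-- MEA -/
def S_MEA : Prop := ∀ (P : ℕ → ℕ) (Q : Polynomial ℝ), IsPol P Q → ∀ K E : ℕ, ∃ N0 : ℕ, ∀ N ≥ N0,
  ∀ s : ℕ → Bool, (Real.log N) ^ E * ct (UU P N) (bad P s K N) ≤ 2 ^ UU P N

/-- IDX -/
def S_IDX : Prop := ∀ q K : ℕ, ∃ E a0 : ℕ, ∀ a ≥ a0, ∀ r ≤ (a + 1) ^ (K + 2), ∀ N : ℕ, 2 ^ a ≤ N →
  ((Nat.pair q (Nat.pair a r) : ℝ) + 1) ^ 2 ≤ (Real.log N) ^ E

/-- SCL -/
def S_SCL : Prop := ∀ (w : ℕ → ℂ) (C : ℝ), (∀ n : ℕ, ‖w n‖ ≤ C * Real.log (n + 2)) →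
  (∀ K : ℕ, ∀ᶠ a : ℕ in atTop, ∀ r ≤ (a + 1) ^ (K + 2),
    ‖∑ n ∈ Icc 1 (sc K a r), w n‖ ≤ (sc K a r : ℝ) / ((Nat.log 2 (sc K a r) : ℝ) + 1) ^ K + 1) →
  Sav w

/-- GRW -/
def S_GRW : Prop := ∀ (P : ℕ → ℕ) (Q : Polynomial ℝ), IsPol P Q → ∃ C : ℝ, ∀ t : ℝ, 0 ≤ t → t ≤ 1 →
  ∀ (s : ℕ → Bool) (n : ℕ),
    ‖(if s n = true then (1 : ℂ) else 0) * (th ⌊(1 + t) * (P n : ℝ)⌋₊ - 1)‖ ≤ C * Real.log (n + 2)

/-- ENM -/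
def S_ENM : Prop := ∃ p : ℕ → ℕ → ℕ, Computable₂ p ∧ ∀ Q : Polynomial ℤ, 1 ≤ Q.natDegree →
  0 < Q.leadingCoeff → ∃ i, ∀ᶠ n : ℕ in atTop, ((p i n : ℕ) : ℤ) = Q.eval (n : ℤ)

/-- REA: the real number of a digit sequence -/
def S_REA : Prop := ∀ b : ℕ → Bool, ∃ t : ℝ, 0 ≤ t ∧ t ≤ 1 ∧ Digits b t

end Pool.Agent.Helper79.CF
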