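import Mathlib
import Pool.Agent.Helper79.CF.Spec
import Pool.Agent.Helper88.EL.AE

set_option autoImplicit false

/-!
# Effective Conjecture F: assembly
-/

namespace Pool.Agent.Helper79.CF

open Finset Filter Topology MeasureTheory
open Pool.Agent.Helper88.EL (num Schnorr dgs ct dg Testable)
open Pool.Agent.Y895.PM (U01)
open Pool.Agent.Q138.GS (th Sav Sm sm_pol cnt_of_sav)

/-- the sequence passes the tests of the family -/
def Tst (p : ℕ → ℕ → ℕ) (s : ℕ → ℕ → Bool) (b : ℕ → Bool) : Prop :=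
  {k | (k + 1) ^ 2 * ct (uI p k) (BI p s k) ≤ 2 ^ uI p k ∧ BI p s k (num b (uI p k)) = true}.Finite

/-- the terms -/
noncomputable def ww (P : ℕ → ℕ) (s : ℕ → Bool) (t : ℝ) (n : ℕ) : ℂ :=
  (if s n = true then (1 : ℂ) else 0) * (th ⌊(1 + t) * (P n : ℝ)⌋₊ - 1)

lemma JJ_pos (P : ℕ → ℕ) (N : ℕ) : 0 < JJ P N := by
  unfold JJ
  refine lt_of_lt_of_le (by norm_num : 0 < 2) ?_
  refine le_trans ?_ (Finset.single_le_sum (f := fun n => 2 * P n + 2) (fun _ _ => Nat.zero_le _)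
    (mem_range.2 (Nat.succ_pos N)))
  omega

lemma core (hD : S_DEV) (hM : S_MEA) (hI : S_IDX) (hS : S_SCL) (hG : S_GRW)
    (p : ℕ → ℕ → ℕ) (s : ℕ → ℕ → Bool) (i : ℕ) (Q : Polynomial ℝ) (hQ : IsPol (p i) Q)
    (b : ℕ → Bool) (hb : Tst p s b) (t : ℝ) (h0 : 0 ≤ t) (h1 : t ≤ 1) (ht : Digits b t) :
    Sav (ww (p i) (s i) t) := by
  obtain ⟨C, hC⟩ := hG (p i) Q hQ
  refine hS _ C (fun n => hC t h0 h1 (s i) n) fun K => ?_
  obtain ⟨E, a0, hE⟩ := hI (Nat.pair i K) K
  obtain ⟨N0, hN0⟩ := hM (p i) Q hQ K E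
  obtain ⟨M, hM'⟩ := hb.bddAbove
  filter_upwards [eventually_ge_atTop a0, eventually_ge_atTop N0, eventually_ge_atTop (M + 1)]
    with a ha1 ha2 ha3 r hr
  set N := sc K a r with hN
  set k := Nat.pair (Nat.pair i K) (Nat.pair a r) with hk
  have hNa : 2 ^ a ≤ N := by rw [hN]; unfold sc; exact Nat.le_add_right _ _
  have hNN : N0 ≤ N := by
    have : a < 2 ^ a := Nat.lt_two_pow_self
    omega
  have hu : uI p k = UU (p i) N := by
    rw [hk]
    unfold uI
    simp only [Nat.unpair_pair]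
    rw [hN]
  have hB : ∀ x, BI p s k x = bad (p i) (s i) K N x := by
    intro x
    rw [hk]
    unfold BI
    simp only [Nat.unpair_pair]
    rw [decide_eq_true hr, Bool.true_and, hN]
  have hsm : (k + 1) ^ 2 * ct (uI p k) (BI p s k) ≤ 2 ^ uI p k := by
    have e : BI p s k = bad (p i) (s i) K N := funext hB
    rw [hu, e]
    have h2 := hE a ha1 r hr N hNa
    have h3 := hN0 N hNN (s i)
    have h4 : ((k : ℝ) + 1) ^ 2 * ct (UU (p i) N) (bad (p i) (s i) K N) ≤ 2 ^ UU (p i) N := by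
      refine le_trans (mul_le_mul_of_nonneg_right ?_ (Nat.cast_nonneg _)) h3
      rw [hk]
      exact h2
    exact_mod_cast h4
  have hnot : BI p s k (num b (uI p k)) = false := by
    by_contra hcon
    rw [Bool.not_eq_false] at hcon
    have h2 : k ≤ M := hM' ⟨hsm, hcon⟩
    have h3 : a ≤ k := (Nat.left_le_pair a r).trans (Nat.right_le_pair _ _)
    omega
  rw [hB, hu] at hnot
  unfold bad at hnot
  rw [Bool.or_eq_false_iff, decide_eq_false_iff_not, decide_eq_false_iff_not] at hnot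
  obtain ⟨g1, g2⟩ := hnot
  have hdig := ht (UU (p i) N)
  have hD' := hD (p i) (s i) N (num b (UU (p i) N)) t hdig.1 hdig.2 h0 h1 (by
    intro n hn
    by_contra hcon
    rw [Bool.not_eq_false] at hcon
    exact g2 ⟨n, hn, hcon⟩)
  have hJ : (0 : ℝ) < JJ (p i) N := by exact_mod_cast JJ_pos _ _
  have hL : (0 : ℝ) < ((Nat.log 2 N : ℝ) + 1) ^ K := by positivity
  have g3 : ((dev (p i) (s i) N (num b (UU (p i) N)) : ℝ)) / JJ (p i) N ≤
      (N : ℝ) / ((Nat.log 2 N : ℝ) + 1) ^ K := by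
    rw [div_le_div_iff₀ hJ hL]
    have : (((Nat.log 2 N + 1) ^ K * dev (p i) (s i) N (num b (UU (p i) N)) : ℕ) : ℝ) ≤
        ((JJ (p i) N * N : ℕ) : ℝ) := by exact_mod_cast not_lt.1 g1
    push_cast at this
    linarith
  have g4 := (abs_le.1 hD').1
  have e : ∑ n ∈ Icc 1 N, ww (p i) (s i) t n = SS (p i) (s i) t N := rfl
  rw [e]
  linarith

lemma log_div (K : ℕ) : Tendsto (fun N : ℕ => (Real.log N) ^ K / N) atTop (𝓝 0) := by
  have h1 : Tendsto (fun x : ℝ => (Real.log x) ^ K / x) atTop (𝓝 0) :=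
    (Real.isLittleO_pow_log_id_atTop (n := K)).tendsto_div_nhds_zero
  exact h1.comp tendsto_natCast_atTop_atTop

lemma sav_fin {w : ℕ → ℂ} (h : ∀ᶠ n in atTop, w n = 0) : Sav w := by
  intro K
  obtain ⟨n0, hn0⟩ := eventually_atTop.1 h
  have h1 : Tendsto (fun N : ℕ => (Real.log N) ^ K / N * ‖∑ n ∈ Icc 1 n0, w n‖) atTop (𝓝 0) := by
    simpa using (log_div K).mul_const ‖∑ n ∈ Icc 1 n0, w n‖
  refine h1.congr' ?_
  filter_upwards [eventually_ge_atTop n0] with N hN
  congr 2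
  refine Finset.sum_subset (Finset.Icc_subset_Icc_right hN) fun n hn hn' => ?_
  rw [mem_Icc] at hn hn'
  exact hn0 n (by omega)

lemma sav_ev {w w' : ℕ → ℂ} (h : Sav w) (he : ∀ᶠ n in atTop, w n = w' n) : Sav w' := by
  have h1 : Sav fun n => w' n - w n := sav_fin (by
    filter_upwards [he] with n hn
    rw [hn, sub_self])
  refine (h.add h1).congr fun n _ => ?_
  ring

lemma sm_isPol {P : ℕ → ℕ} {Q : Polynomial ℝ} (h : IsPol P Q) : Sm Q.natDegree fun n => (P n : ℝ) := by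
  obtain ⟨hd, hl, he⟩ := h
  obtain ⟨hc, φ, hφ, n0, hn0⟩ := sm_pol hd hl
  obtain ⟨n1, hn1⟩ := eventually_atTop.1 he
  refine ⟨hc, φ, hφ, max n0 n1, fun n hn => ?_⟩
  show (P n : ℝ) = _
  rw [hn1 n (le_trans (le_max_right _ _) hn)]
  exact hn0 n (le_trans (le_max_left _ _) hn)

/-- the number of the elements `n` of `S` with `1 ≤ n ≤ N` -/
noncomputable def count (S : Set ℕ) (N : ℕ) : ℝ := by
  classical exact (((Icc 1 N).filter (fun n => n ∈ S)).card : ℝ)

/-- `S` has at least `N / (log N) ^ B` elements up to `N`, for some `B` and all large `N` -/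
def LogDense (S : Set ℕ) : Prop := ∃ B : ℕ, ∀ᶠ N : ℕ in atTop, (N : ℝ) / (Real.log N) ^ B ≤ count S N

/-- the law for the multiplier `1 + t`, the polynomial `f` and the set `S` -/
def Law (t : ℝ) (f : Polynomial ℤ) (S : Set ℕ) : Prop :=
  Tendsto (fun N : ℕ => count {n | n ∈ S ∧ (⌊(1 + t) * ((f.eval (n : ℤ) : ℤ) : ℝ)⌋₊).Prime} N *
    Real.log N / count S N) atTop (𝓝 (1 / f.natDegree))

lemma count_eq (S : Set ℕ) (N : ℕ) : count S N = Pool.Agent.Q138.GS.ct (fun n => n ∈ S) N := by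
  unfold count Pool.Agent.Q138.GS.ct
  congr 2

lemma isPol_int {P : ℕ → ℕ} {f : Polynomial ℤ} (hd : 1 ≤ f.natDegree) (hl : 0 < f.leadingCoeff)
    (he : ∀ᶠ n : ℕ in atTop, ((P n : ℕ) : ℤ) = f.eval (n : ℤ)) :
    IsPol P (f.map (Int.castRingHom ℝ)) := by
  have hinj : Function.Injective (Int.castRingHom ℝ) := RingHom.injective_int _
  refine ⟨by rwa [Polynomial.natDegree_map_eq_of_injective hinj], ?_, ?_⟩
  · rw [Polynomial.leadingCoeff_map_of_injective hinj]
    simpa using hl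
  · filter_upwards [he] with n hn
    have h1 : (f.map (Int.castRingHom ℝ)).eval (n : ℝ) = ((f.eval (n : ℤ) : ℤ) : ℝ) := by
      have := Polynomial.eval_intCast_map (Int.castRingHom ℝ) f (n : ℤ)
      simpa using this
    rw [h1, ← hn]
    simp

lemma law_of_sav (P : ℕ → ℕ) (s : ℕ → Bool) (f : Polynomial ℤ) (hd : 1 ≤ f.natDegree)
    (hl : 0 < f.leadingCoeff) (he : ∀ᶠ n : ℕ in atTop, ((P n : ℕ) : ℤ) = f.eval (n : ℤ)) (t : ℝ)
    (h0 : 0 ≤ t) (h : Sav (ww P s t)) (hS : LogDense {n | s n = true}) :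
    Law t f {n | s n = true} := by
  obtain ⟨B, hB⟩ := hS
  have hP := isPol_int hd hl he
  have hinj : Function.Injective (Int.castRingHom ℝ) := RingHom.injective_int _
  have hm := (sm_isPol hP).log (α := 1 + t) (β := 0) (by linarith)
  rw [Polynomial.natDegree_map_eq_of_injective hinj] at hm
  simp only [add_zero] at hm
  have hev : ∀ᶠ n : ℕ in atTop, ⌊(1 + t) * (P n : ℝ)⌋₊ = ⌊(1 + t) * ((f.eval (n : ℤ) : ℤ) : ℝ)⌋₊ := by
    filter_upwards [he] with n hn
    rw [← hn]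
    simp
  have hm2 : Tendsto (fun n : ℕ => Real.log (⌊(1 + t) * ((f.eval (n : ℤ) : ℤ) : ℝ)⌋₊ : ℕ) / Real.log n)
      atTop (𝓝 (f.natDegree : ℝ)) := by
    refine hm.congr' ?_
    filter_upwards [hev] with n hn
    rw [hn]
  have hs2 : Sav fun n => (if (n ∈ {n | s n = true}) then (1 : ℂ) else 0) *
      (∏ _i : Fin 1, th ⌊(1 + t) * ((f.eval (n : ℤ) : ℤ) : ℝ)⌋₊ - 1) := by
    refine sav_ev h ?_
    filter_upwards [hev] with n hn
    unfold ww
    rw [hn]
    simp only [Set.mem_ofPred_eq, Finset.univ_unique, Finset.prod_const, Finset.card_singleton, pow_one]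
  have key := cnt_of_sav (ι := Fin 1) (fun _ n => ⌊(1 + t) * ((f.eval (n : ℤ) : ℤ) : ℝ)⌋₊)
    (fun _ => (f.natDegree : ℝ)) (fun _ => by exact_mod_cast hd) (fun _ => hm2)
    (fun n => n ∈ {n | s n = true}) B (by simpa only [count_eq] using hB) (by
      refine hs2.congr fun n _ => ?_
      by_cases hn : s n = true
      · simp only [Set.mem_ofPred_eq, hn, if_true]
      · simp only [Set.mem_ofPred_eq, hn, if_false, zero_mul, Bool.false_eq_true])
  unfold Law
  simp only [Fintype.card_fin, pow_one, Finset.univ_unique, Finset.prod_const, Finset.card_singleton] at key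
  refine key.congr fun N => ?_
  rw [count_eq, count_eq]
  congr 3
  funext n
  simp

end Pool.Agent.Helper79.CF
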