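import Mathlib
import Pool.Agent.Helper79.CF.Asm

set_option autoImplicit false

/-!
# Effective Conjecture F, stage 2: systems of polynomials, definitions and parts
-/

namespace Pool.Agent.Helper79.CF

open Finset Filter Topology MeasureTheory
open Pool.Agent.Helper88.EL (num Schnorr dgs ct dg Testable)

/-- the law for several multipliers `1 + t i`, polynomials `f i` and the set `S` -/
def JLaw {r : ℕ} (t : Fin r → ℝ) (f : Fin r → Polynomial ℤ) (S : Set ℕ) : Prop :=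
  Tendsto (fun N : ℕ => count {n | n ∈ S ∧ ∀ i, (⌊(1 + t i) * (((f i).eval (n : ℤ) : ℤ) : ℝ)⌋₊).Prime} N *
    (Real.log N) ^ r / count S N) atTop (𝓝 (∏ i, (1 / ((f i).natDegree : ℝ))))

/-- CMS: membership is computable -/
def S_CMS : Prop := ∀ (b : ℕ → Bool) (t : ℝ), Computable b → Digits b t → Irrational t →
  ∀ p : ℕ → ℕ → ℕ, Computable₂ p → ∃ g : ℕ → ℕ → Bool, Computable₂ g ∧
    ∀ j n, g j n = true ↔ (⌊(1 + t) * (p j n : ℝ)⌋₊).Prime

/-- IRR: the law forces irrationality (take `f = 2 B X` if `1 + t = A / B`) -/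
def S_IRR : Prop := ∀ t : ℝ, 0 ≤ t →
  (∀ f : Polynomial ℤ, 1 ≤ f.natDegree → 0 < f.leadingCoeff → Law t f Set.univ) → Irrational t

/-- DEN: the law keeps logarithmic density -/
def S_DEN : Prop := ∀ (t : ℝ) (f : Polynomial ℤ) (S : Set ℕ), 1 ≤ f.natDegree → LogDense S →
  Law t f S → LogDense {n | n ∈ S ∧ (⌊(1 + t) * ((f.eval (n : ℤ) : ℤ) : ℝ)⌋₊).Prime}

/-- DIF: sets which differ at finitely many places; `A ⊆ S` is not needed -/
def S_DIF : Prop := ∀ (A A' S S' : Set ℕ) (r : ℕ) (L : ℝ), LogDense S →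
  (∀ᶠ n in atTop, (n ∈ A ↔ n ∈ A')) → (∀ᶠ n in atTop, (n ∈ S ↔ n ∈ S')) →
  Tendsto (fun N : ℕ => count A N * (Real.log N) ^ r / count S N) atTop (𝓝 L) →
  Tendsto (fun N : ℕ => count A' N * (Real.log N) ^ r / count S' N) atTop (𝓝 L)

end Pool.Agent.Helper79.CF
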