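import Mathlib
import Pool.Agent.Helper79.CF.Asm
import Pool.Agent.Helper88.EL.ML

set_option autoImplicit false

/-!
# Effective Conjecture F: the final statements from the parts
-/

namespace Pool.Agent.Helper79.CF

open Finset Filter Topology MeasureTheory
open Pool.Agent.Helper88.EL (num Schnorr dgs ct dg Testable num_dgs ae_ml)

lemma Digits.mem {b : ℕ → Bool} {t : ℝ} (h : Digits b t) : 0 ≤ t ∧ t ≤ 1 := by
  have h1 := h 0
  simp only [num, pow_zero, one_mul, Nat.cast_zero, zero_add] at h1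
  exact h1

/-- one test for a computable sequence of sets and all polynomials -/
theorem test_all (hT : S_TST) (hC : S_CMP) (hD : S_DEV) (hM : S_MEA) (hI : S_IDX) (hS : S_SCL)
    (hG : S_GRW) (hE : S_ENM) (s : ℕ → ℕ → Bool) (hs : Computable₂ s) :
    Testable fun b => ∀ t, Digits b t → ∀ i, LogDense {n | s i n = true} → ∀ f : Polynomial ℤ,
      1 ≤ f.natDegree → 0 < f.leadingCoeff → Law t f {n | s i n = true} := by
  obtain ⟨p, hp, hpf⟩ := hE
  have h2 : Computable₂ fun k n : ℕ => p k.unpair.2 n :=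
    Computable₂.comp hp (Computable.snd.comp (Primrec.unpair.to_comp.comp Computable.fst)) Computable.snd
  have h3 : Computable₂ fun k n : ℕ => s k.unpair.1 n :=
    Computable₂.comp hs (Computable.fst.comp (Primrec.unpair.to_comp.comp Computable.fst)) Computable.snd
  obtain ⟨hu, hB⟩ := hC (fun k n => p k.unpair.2 n) (fun k n => s k.unpair.1 n) h2 h3
  refine (hT _ _ hu hB).mono fun b hb t ht i hi f hd hl => ?_
  obtain ⟨j, hj⟩ := hpf f hd hl
  have hpol := isPol_int hd hl hj
  have hk1 : (Nat.pair i j).unpair.2 = j := by rw [Nat.unpair_pair]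
  have hk2 : (Nat.pair i j).unpair.1 = i := by rw [Nat.unpair_pair]
  have h4 := core hD hM hI hS hG (fun k n => p k.unpair.2 n) (fun k n => s k.unpair.1 n)
    (Nat.pair i j) (f.map (Int.castRingHom ℝ)) (by simpa only [hk1] using hpol) b hb t ht.mem.1
    ht.mem.2 ht
  simp only [hk1, hk2] at h4
  exact law_of_sav (p j) (s i) f hd hl hj t ht.mem.1 h4 hi

lemma digits_dgs {t : ℝ} (h0 : 0 ≤ t) (h1 : t < 1) : Digits (dgs t) t := by
  intro u
  rw [num_dgs h0 h1]
  have h2 : 0 ≤ 2 ^ u * t := by positivity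
  exact ⟨Nat.floor_le h2, (Nat.lt_floor_add_one _).le⟩

/-- the result from the parts -/
theorem final (hT : S_TST) (hC : S_CMP) (hD : S_DEV) (hM : S_MEA) (hI : S_IDX) (hS : S_SCL)
    (hG : S_GRW) (hE : S_ENM) (hR : S_REA) :
    -- almost every number has a Schnorr random digit sequence
    (∀ᵐ t ∂(volume.restrict (Set.Ico (0 : ℝ) 1)), Schnorr (dgs t) ∧ Digits (dgs t) t) ∧
    -- the law for every Schnorr random number
    (∀ b : ℕ → Bool, Schnorr b → ∀ t : ℝ, Digits b t →
      ∀ s : ℕ → Bool, Computable s → LogDense {n | s n = true} →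
      ∀ f : Polynomial ℤ, 1 ≤ f.natDegree → 0 < f.leadingCoeff → Law t f {n | s n = true}) ∧
    -- computable numbers with prescribed first digits
    (∀ s : ℕ → ℕ → Bool, Computable₂ s → ∀ (c : ℕ → Bool) (k : ℕ),
      ∃ (b : ℕ → Bool) (t : ℝ), Computable b ∧ (∀ i < k, b i = c i) ∧ Digits b t ∧
      (∀ f : Polynomial ℤ, 1 ≤ f.natDegree → 0 < f.leadingCoeff → Law t f Set.univ) ∧
      ∀ i, LogDense {n | s i n = true} →
        ∀ f : Polynomial ℤ, 1 ≤ f.natDegree → 0 < f.leadingCoeff → Law t f {n | s i n = true}) := by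
  have hall := test_all hT hC hD hM hI hS hG hE
  refine ⟨?_, fun b hb t ht s hs hd f h1 h2 => ?_, fun s hs c k => ?_⟩
  · have hmem : ∀ᵐ t ∂(volume.restrict (Set.Ico (0 : ℝ) 1)), t ∈ Set.Ico (0 : ℝ) 1 :=
      ae_restrict_mem measurableSet_Ico
    filter_upwards [ae_ml, hmem] with t ht hm
    exact ⟨ht.schnorr, digits_dgs hm.1 hm.2⟩
  · have hs2 : Computable₂ fun (_ : ℕ) (n : ℕ) => s n := hs.comp Computable.snd
    exact (hall _ hs2).schnorr hb t ht 0 hd f h1 h2
  · have hs2 : Computable₂ fun (i : ℕ) (n : ℕ) => (Nat.casesOn i true fun j => s j n : Bool) := by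
      have g : Computable₂ fun (z : ℕ × ℕ) (j : ℕ) => s j z.2 :=
        Computable₂.comp hs Computable.snd (Computable.snd.comp Computable.fst)
      exact Computable.nat_casesOn Computable.fst (Computable.const true) g
    obtain ⟨b, hb1, hb2, hb3⟩ := (hall _ hs2).comp c k
    obtain ⟨t, -, -, ht⟩ := hR b
    refine ⟨b, t, hb1, hb2, ht, fun f h1 h2 => ?_, fun i hi f h1 h2 => ?_⟩
    · have h3 := hb3 t ht 0 ?_ f h1 h2
      · convert h3 using 1
        ext n
        simp
      · refine ⟨0, Filter.Eventually.of_forall fun N => ?_⟩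
        rw [pow_zero, div_one]
        unfold count
        simp
    · exact hb3 t ht (i + 1) hi f h1 h2

end Pool.Agent.Helper79.CF
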