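import Mathlib
import Pool.Agent.Helper79.CF.Fin

set_option autoImplicit false

/-!
# Effective Conjecture F: the final statements, with the weighted sums
-/

namespace Pool.Agent.Helper79.CF

open Finset Filter Topology MeasureTheory
open Pool.Agent.Helper88.EL (num Schnorr dgs ct dg Testable num_dgs ae_ml)
open Pool.Agent.Q138.GS (th Sav Sm sm_pol cnt_of_sav)

/-- `log m` if `m` is a prime number, and `0` otherwise -/
noncomputable def theta (m : ℕ) : ℝ := if m.Prime then Real.log m else 0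

/-- the law for the weighted sums, with an error smaller than every power of the logarithm:
the sum of `theta ⌊(1 + t) f(n)⌋ - 1` over the `n ≤ N` of `S` is `o (N / (log N) ^ K)` for all `K` -/
def SumLaw (t : ℝ) (f : Polynomial ℤ) (S : Set ℕ) : Prop :=
  ∀ K : ℕ, Tendsto (fun N : ℕ => (Real.log N) ^ K / N *
    |∑ n ∈ Icc 1 N, S.indicator
      (fun n : ℕ => theta ⌊(1 + t) * ((f.eval (n : ℤ) : ℤ) : ℝ)⌋₊ - 1) n|) atTop (𝓝 0)

lemma sumlaw_of_sav (P : ℕ → ℕ) (s : ℕ → Bool) (f : Polynomial ℤ)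
    (he : ∀ᶠ n : ℕ in atTop, ((P n : ℕ) : ℤ) = f.eval (n : ℤ)) (t : ℝ)
    (h : Sav (ww P s t)) : SumLaw t f {n | s n = true} := by
  set F : ℕ → ℝ := fun n => ({n | s n = true} : Set ℕ).indicator
      (fun n : ℕ => theta ⌊(1 + t) * ((f.eval (n : ℤ) : ℤ) : ℝ)⌋₊ - 1) n with hF
  have h2 : Sav fun n => ((F n : ℝ) : ℂ) := by
    refine sav_ev h ?_
    filter_upwards [he] with n hn
    have h3 : ((f.eval (n : ℤ) : ℤ) : ℝ) = (P n : ℝ) := by
      rw [← hn]
      simp
    unfold ww
    rw [hF]
    by_cases hs : s n = true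
    · simp only
      rw [if_pos hs, one_mul, Set.indicator_of_mem (by exact hs), h3]
      unfold theta th
      split_ifs <;> push_cast <;> rfl
    · simp only
      rw [if_neg hs, zero_mul, Set.indicator_of_notMem (by exact hs)]
      simp
  intro K
  refine (h2 K).congr fun N => ?_
  rw [← Complex.ofReal_sum, Complex.norm_real, Real.norm_eq_abs]

/-- one test for a computable sequence of sets and all polynomials -/
theorem test_all2 (hT : S_TST) (hC : S_CMP) (hD : S_DEV) (hM : S_MEA) (hI : S_IDX) (hS : S_SCL)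
    (hG : S_GRW) (hE : S_ENM) (s : ℕ → ℕ → Bool) (hs : Computable₂ s) :
    Testable fun b => ∀ t, Digits b t → ∀ i, ∀ f : Polynomial ℤ,
      1 ≤ f.natDegree → 0 < f.leadingCoeff → SumLaw t f {n | s i n = true} ∧
        (LogDense {n | s i n = true} → Law t f {n | s i n = true}) := by
  obtain ⟨p, hp, hpf⟩ := hE
  have h2 : Computable₂ fun k n : ℕ => p k.unpair.2 n :=
    Computable₂.comp hp (Computable.snd.comp (Primrec.unpair.to_comp.comp Computable.fst)) Computable.snd
  have h3 : Computable₂ fun k n : ℕ => s k.unpair.1 n :=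
    Computable₂.comp hs (Computable.fst.comp (Primrec.unpair.to_comp.comp Computable.fst)) Computable.snd
  obtain ⟨hu, hB⟩ := hC (fun k n => p k.unpair.2 n) (fun k n => s k.unpair.1 n) h2 h3
  refine (hT _ _ hu hB).mono fun b hb t ht i f hd hl => ?_
  obtain ⟨j, hj⟩ := hpf f hd hl
  have hpol := isPol_int hd hl hj
  have hk1 : (Nat.pair i j).unpair.2 = j := by rw [Nat.unpair_pair]
  have hk2 : (Nat.pair i j).unpair.1 = i := by rw [Nat.unpair_pair]
  have h4 := core hD hM hI hS hG (fun k n => p k.unpair.2 n) (fun k n => s k.unpair.1 n)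
    (Nat.pair i j) (f.map (Int.castRingHom ℝ)) (by simpa only [hk1] using hpol) b hb t ht.mem.1
    ht.mem.2 ht
  simp only [hk1, hk2] at h4
  exact ⟨sumlaw_of_sav (p j) (s i) f hj t h4, fun hi => law_of_sav (p j) (s i) f hd hl hj t ht.mem.1 h4 hi⟩

/-- the result from the parts -/
theorem final2 (hT : S_TST) (hC : S_CMP) (hD : S_DEV) (hM : S_MEA) (hI : S_IDX) (hS : S_SCL)
    (hG : S_GRW) (hE : S_ENM) (hR : S_REA) :
    -- almost every number has a Schnorr random digit sequence
    (∀ᵐ t ∂(volume.restrict (Set.Ico (0 : ℝ) 1)), Schnorr (dgs t) ∧ Digits (dgs t) t) ∧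
    -- the laws for every Schnorr random number
    (∀ b : ℕ → Bool, Schnorr b → ∀ t : ℝ, Digits b t → ∀ s : ℕ → Bool, Computable s →
      ∀ f : Polynomial ℤ, 1 ≤ f.natDegree → 0 < f.leadingCoeff →
        SumLaw t f {n | s n = true} ∧ (LogDense {n | s n = true} → Law t f {n | s n = true})) ∧
    -- computable numbers with prescribed first digits
    (∀ s : ℕ → ℕ → Bool, Computable₂ s → ∀ (c : ℕ → Bool) (k : ℕ),
      ∃ (b : ℕ → Bool) (t : ℝ), Computable b ∧ (∀ i < k, b i = c i) ∧ Digits b t ∧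
      ∀ f : Polynomial ℤ, 1 ≤ f.natDegree → 0 < f.leadingCoeff →
        SumLaw t f Set.univ ∧ Law t f Set.univ ∧
        ∀ i, SumLaw t f {n | s i n = true} ∧
          (LogDense {n | s i n = true} → Law t f {n | s i n = true})) := by
  have hall := test_all2 hT hC hD hM hI hS hG hE
  refine ⟨?_, fun b hb t ht s hs f h1 h2 => ?_, fun s hs c k => ?_⟩
  · have hmem : ∀ᵐ t ∂(volume.restrict (Set.Ico (0 : ℝ) 1)), t ∈ Set.Ico (0 : ℝ) 1 :=
      ae_restrict_mem measurableSet_Ico
    filter_upwards [ae_ml, hmem] with t ht hm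
    exact ⟨ht.schnorr, digits_dgs hm.1 hm.2⟩
  · have hs2 : Computable₂ fun (_ : ℕ) (n : ℕ) => s n := hs.comp Computable.snd
    exact (hall _ hs2).schnorr hb t ht 0 f h1 h2
  · have hs2 : Computable₂ fun (i : ℕ) (n : ℕ) => (Nat.casesOn i true fun j => s j n : Bool) := by
      have g : Computable₂ fun (z : ℕ × ℕ) (j : ℕ) => s j z.2 :=
        Computable₂.comp hs Computable.snd (Computable.snd.comp Computable.fst)
      exact Computable.nat_casesOn Computable.fst (Computable.const true) g
    obtain ⟨b, hb1, hb2, hb3⟩ := (hall _ hs2).comp c k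
    obtain ⟨t, -, -, ht⟩ := hR b
    have hu : {n : ℕ | (Nat.casesOn (0 : ℕ) true fun j => s j n : Bool) = true} = Set.univ := by
      ext n
      simp
    refine ⟨b, t, hb1, hb2, ht, fun f h1 h2 => ?_⟩
    have h0 := hb3 t ht 0 f h1 h2
    rw [hu] at h0
    refine ⟨h0.1, h0.2 ?_, fun i => hb3 t ht (i + 1) f h1 h2⟩
    refine ⟨0, Filter.Eventually.of_forall fun N => ?_⟩
    rw [pow_zero, div_one]
    unfold count
    simp

end Pool.Agent.Helper79.CF
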