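import Mathlib
import Pool.Agent.Helper79.CF.Spec2
import Pool.Agent.Helper79.CF.Fin

set_option autoImplicit false

/-!
# Effective Conjecture F, stage 2: the induction
-/

namespace Pool.Agent.Helper79.CF

open Finset Filter Topology MeasureTheory
open Pool.Agent.Helper88.EL (num Schnorr dgs ct dg Testable)

/-- the one variable theorem -/
def St3 : Prop := ∀ s : ℕ → ℕ → Bool, Computable₂ s → ∀ (c : ℕ → Bool) (k : ℕ),
  ∃ (b : ℕ → Bool) (t : ℝ), Computable b ∧ (∀ i < k, b i = c i) ∧ Digits b t ∧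
  (∀ f : Polynomial ℤ, 1 ≤ f.natDegree → 0 < f.leadingCoeff → Law t f Set.univ) ∧
  ∀ i, LogDense {n | s i n = true} →
    ∀ f : Polynomial ℤ, 1 ≤ f.natDegree → 0 < f.leadingCoeff → Law t f {n | s i n = true}

lemma count_nonneg (S : Set ℕ) (N : ℕ) : 0 ≤ count S N := by
  unfold count
  exact Nat.cast_nonneg _

lemma count_le_add {A A' : Set ℕ} {n0 : ℕ} (h : ∀ n ≥ n0, n ∈ A → n ∈ A') (N : ℕ) :
    count A N ≤ count A' N + n0 := by
  classical
  rw [count_eq, count_eq]
  unfold Pool.Agent.Q138.GS.ct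
  have h1 : (Icc 1 N).filter (fun n => n ∈ A) ⊆ (Icc 1 N).filter (fun n => n ∈ A') ∪ range n0 := by
    intro n hn
    rw [mem_filter] at hn
    rw [mem_union, mem_filter, mem_range]
    by_cases hn0 : n < n0
    · exact Or.inr hn0
    · exact Or.inl ⟨hn.1, h n (not_lt.1 hn0) hn.2⟩
  have h2 := (Finset.card_le_card h1).trans (Finset.card_union_le _ _)
  rw [card_range] at h2
  exact_mod_cast h2

lemma log_pow_small (B : ℕ) (C : ℝ) : ∀ᶠ N : ℕ in atTop,
    (N : ℝ) / (Real.log N) ^ (B + 1) ≤ (N : ℝ) / (Real.log N) ^ B - C ∧ 1 ≤ Real.log N := by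
  have hl : Tendsto (fun n : ℕ => Real.log (n : ℝ)) atTop atTop :=
    Real.tendsto_log_atTop.comp tendsto_natCast_atTop_atTop
  have h1 := (log_div B).eventually_lt_const (show (0 : ℝ) < 1 / (2 * (|C| + 1)) by positivity)
  filter_upwards [h1, hl.eventually_ge_atTop 2, eventually_gt_atTop 0] with N hN1 hN2 hN3
  have hNp : (0 : ℝ) < N := by exact_mod_cast hN3
  have hLp : 0 < Real.log N := by linarith
  refine ⟨?_, by linarith⟩
  have hX : (0 : ℝ) < (Real.log N) ^ B := by positivity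
  rw [div_lt_div_iff₀ hNp (by positivity)] at hN1
  have h2 : 2 * |C| ≤ (N : ℝ) / (Real.log N) ^ B := by
    rw [le_div_iff₀ hX]
    nlinarith
  have h3 : (N : ℝ) / (Real.log N) ^ (B + 1) ≤ (N : ℝ) / (Real.log N) ^ B / 2 := by
    rw [pow_succ, ← div_div]
    exact div_le_div_of_nonneg_left (by positivity) (by norm_num) hN2
  have h4 := le_abs_self C
  linarith

lemma ld_ev {S S' : Set ℕ} (hS : LogDense S) (h : ∀ᶠ n in atTop, (n ∈ S → n ∈ S')) : LogDense S' := by
  obtain ⟨B, hB⟩ := hS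
  obtain ⟨n0, hn0⟩ := eventually_atTop.1 h
  refine ⟨B + 1, ?_⟩
  filter_upwards [hB, log_pow_small B n0] with N h1 h2
  have h3 := count_le_add (A := S) (A' := S') (n0 := n0) hn0 N
  linarith [h2.1]

lemma ld_pos {S : Set ℕ} (hS : LogDense S) : ∀ᶠ N : ℕ in atTop, 0 < count S N := by
  obtain ⟨B, hB⟩ := hS
  filter_upwards [hB, log_pow_small B 0, eventually_gt_atTop 0] with N h1 h2 h3
  have hNp : (0 : ℝ) < N := by exact_mod_cast h3
  have : 0 < (N : ℝ) / (Real.log N) ^ B := by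
    have := h2.2
    positivity
  linarith

theorem systems (h3 : St3) (hC : S_CMS) (hI : S_IRR) (hDE : S_DEN) (hDI : S_DIF) (hE : S_ENM) :
    ∀ (r : ℕ) (s : ℕ → ℕ → Bool), Computable₂ s → ∀ (c : ℕ → ℕ → Bool) (k : ℕ),
      ∃ (b : Fin r → ℕ → Bool) (t : Fin r → ℝ), (∀ i, Computable (b i)) ∧
      (∀ i, ∀ j < k, b i j = c i j) ∧ (∀ i, Digits (b i) (t i)) ∧ (∀ i, Irrational (t i)) ∧
      ∀ j, LogDense {n | s j n = true} → ∀ f : Fin r → Polynomial ℤ,
        (∀ i, 1 ≤ (f i).natDegree ∧ 0 < (f i).leadingCoeff) → JLaw t f {n | s j n = true} := by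
  obtain ⟨p, hp, hpf⟩ := hE
  intro r
  induction r with
  | zero =>
    intro s hs c k
    refine ⟨fun i => i.elim0, fun i => i.elim0, fun i => i.elim0, fun i => i.elim0,
      fun i => i.elim0, fun i => i.elim0, fun j hj f hf => ?_⟩
    unfold JLaw
    have e : ∀ N : ℕ, count {n | n ∈ {n | s j n = true} ∧ ∀ i : Fin 0,
        (⌊(1 + (i.elim0 : ℝ)) * (((f i).eval (n : ℤ) : ℤ) : ℝ)⌋₊).Prime} N =
        count {n | s j n = true} N := by
      intro N
      congr 1
      ext n
      simp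
    simp only [Finset.univ_eq_empty, Finset.prod_empty, pow_zero, mul_one]
    refine tendsto_const_nhds.congr' ?_
    filter_upwards [ld_pos hj] with N hN
    have e2 := e N
    rw [div_eq_one_iff_eq hN.ne' |>.2]
    exact e2
  | succ r ih =>
    intro s hs c k
    obtain ⟨b0, t0, hb0, hb0c, ht0, hlaw, hlawS⟩ := h3 s hs (c 0) k
    have hirr := hI t0 ht0.mem.1 hlaw
    obtain ⟨g, hg, hgp⟩ := hC b0 t0 hb0 ht0 hirr p hp
    have hs' : Computable₂ fun k n : ℕ => s k.unpair.1 n && g k.unpair.2 n :=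
      Pool.Agent.Helper88.EL.comp_and
        (Computable₂.comp hs (Computable.fst.comp (Primrec.unpair.to_comp.comp Computable.fst))
          Computable.snd)
        (Computable₂.comp hg (Computable.snd.comp (Primrec.unpair.to_comp.comp Computable.fst))
          Computable.snd)
    obtain ⟨b', t', hb', hbc', ht', hir', hJ'⟩ := ih _ hs' (fun i => c (i + 1)) k
    refine ⟨Fin.cons b0 b', Fin.cons t0 t', ?_, ?_, ?_, ?_, ?_⟩
    · intro i
      refine Fin.cases ?_ (fun i => ?_) i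
      · simpa using hb0
      · simpa using hb' i
    · intro i
      refine Fin.cases ?_ (fun i => ?_) i
      · simpa using hb0c
      · simpa using hbc' i
    · intro i
      refine Fin.cases ?_ (fun i => ?_) i
      · simpa using ht0
      · simpa using ht' i
    · intro i
      refine Fin.cases ?_ (fun i => ?_) i
      · simpa using hirr
      · simpa using hir' i
    · intro j hj f hf
      obtain ⟨i0, hi0⟩ := hpf (f 0) (hf 0).1 (hf 0).2
      set S : Set ℕ := {n | s j n = true} with hS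
      set S' : Set ℕ := {n | (s (Nat.pair j i0).unpair.1 n && g (Nat.pair j i0).unpair.2 n) = true} with hS'
      set S2 : Set ℕ := {n | n ∈ S ∧ (⌊(1 + t0) * (((f 0).eval (n : ℤ) : ℤ) : ℝ)⌋₊).Prime} with hS2
      have hSS : ∀ᶠ n in atTop, (n ∈ S' ↔ n ∈ S2) := by
        filter_upwards [hi0] with n hn
        rw [hS', hS2, hS]
        simp only [Set.mem_ofPred_eq, Nat.unpair_pair, Bool.and_eq_true]
        rw [hgp, ← hn]
        simp
      have hL1 : Law t0 (f 0) S := hlawS j hj (f 0) (hf 0).1 (hf 0).2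
      have hld2 : LogDense S2 := hDE t0 (f 0) S (hf 0).1 hj hL1
      have hld1 : LogDense S' := ld_ev hld2 (by
        filter_upwards [hSS] with n hn h using hn.2 h)
      have hJ1 := hJ' (Nat.pair j i0) hld1 (fun i => f i.succ) (fun i => hf i.succ)
      unfold JLaw at hJ1
      have hJ2 := hDI _ {n | n ∈ S2 ∧ ∀ i : Fin r,
        (⌊(1 + t' i) * (((f i.succ).eval (n : ℤ) : ℤ) : ℝ)⌋₊).Prime} S' S2 r _ hld1 (by
          filter_upwards [hSS] with n hn
          constructor
          · rintro ⟨h1, h2⟩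
            exact ⟨hn.1 h1, h2⟩
          · rintro ⟨h1, h2⟩
            exact ⟨hn.2 h1, h2⟩) hSS hJ1
      have hprod := hJ2.mul hL1
      unfold JLaw
      rw [Fin.prod_univ_succ]
      have e1 : (1 / ((f 0).natDegree : ℝ)) * ∏ i : Fin r, (1 / ((f i.succ).natDegree : ℝ)) =
          (∏ i : Fin r, (1 / ((f i.succ).natDegree : ℝ))) * (1 / ((f 0).natDegree : ℝ)) := mul_comm _ _
      rw [e1]
      refine hprod.congr' ?_
      filter_upwards [ld_pos hld2, ld_pos hj] with N hN1 hN2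
      have e2 : {n | n ∈ S ∧ ∀ i : Fin (r + 1), (⌊(1 + (Fin.cons t0 t' : Fin (r + 1) → ℝ) i) *
          (((f i).eval (n : ℤ) : ℤ) : ℝ)⌋₊).Prime} = {n | n ∈ S2 ∧ ∀ i : Fin r,
        (⌊(1 + t' i) * (((f i.succ).eval (n : ℤ) : ℤ) : ℝ)⌋₊).Prime} := by
        ext n
        simp only [Set.mem_ofPred_eq, Fin.forall_fin_succ, Fin.cons_zero, Fin.cons_succ, hS2]
        tauto
      rw [e2]
      have hN1' : count {n | n ∈ S ∧ (⌊(1 + t0) * (((f 0).eval (n : ℤ) : ℤ) : ℝ)⌋₊).Prime} N ≠ 0 :=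
        hN1.ne'
      change _ / count S2 N * (count S2 N * _ / count S N) = _
      have hS2ne : count S2 N ≠ 0 := hN1.ne'
      field_simp
      try ring

end Pool.Agent.Helper79.CF
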