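import Mathlib
import Pool.Agent.Helper79.CF.Fin2
import Pool.Agent.Helper22.CF.ELL
import Pool.Agent.Helper22.CF.FLR
import Pool.Agent.Helper24.CF.CMP
import Pool.Agent.Helper27.CF.ENM
import Pool.Agent.Helper27.CF.GRW
import Pool.Agent.Helper30.CF.AMB
import Pool.Agent.Helper11.CF.L2
import Pool.Agent.Helper41.CF.SCL
import Pool.Agent.Helper49.CF.REA
import Pool.Agent.Helper52.CF.TST
import Pool.Agent.Helper71.CF.DEV
import Pool.Agent.Helper74.CF.IDX
import Pool.Agent.Helper97.CF.MEA

set_option autoImplicit false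

namespace Pool.Agent.Helper79.CF

lemma dev_all : S_DEV := Pool.Agent.Helper71.CF.DEV.main Pool.Agent.Helper22.CF.FLR.main
  Pool.Agent.Helper22.CF.ELL.main

lemma mea_all : S_MEA := Pool.Agent.Helper97.CF.MEA.main Pool.Agent.Helper11.CF.L2.main dev_all
  Pool.Agent.Helper30.CF.AMB.main

end Pool.Agent.Helper79.CF
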