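import Mathlib
import Pool.Agent.Helper79.CF.Main
import Pool.Agent.Helper79.CF.Ind
import Pool.Agent.Helper13.CF.DIF
import Pool.Agent.Helper14.CF.CMS
import Pool.Agent.Helper41.CF.DEN
import Pool.Agent.Helper47.CF.IRR

set_option autoImplicit false

namespace Pool.Agent.Helper79.CF

open Pool.Agent.Helper88.EL (num Schnorr dgs)

lemma st3 : St3 := (final Pool.Agent.Helper52.CF.TST.main Pool.Agent.Helper24.CF.CMP.main
    dev_all mea_all Pool.Agent.Helper74.CF.IDX.main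
    Pool.Agent.Helper41.CF.SCL.main Pool.Agent.Helper27.CF.GRW.main Pool.Agent.Helper27.CF.ENM.main
    Pool.Agent.Helper49.CF.REA.main).2.2

/-- **Systems of polynomials.** -/
theorem systems_main : ∀ (r : ℕ) (s : ℕ → ℕ → Bool), Computable₂ s → ∀ (c : ℕ → ℕ → Bool) (k : ℕ),
      ∃ (b : Fin r → ℕ → Bool) (t : Fin r → ℝ), (∀ i, Computable (b i)) ∧
      (∀ i, ∀ j < k, b i j = c i j) ∧ (∀ i, Digits (b i) (t i)) ∧ (∀ i, Irrational (t i)) ∧
      ∀ j, LogDense {n | s j n = true} → ∀ f : Fin r → Polynomial ℤ,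
        (∀ i, 1 ≤ (f i).natDegree ∧ 0 < (f i).leadingCoeff) → JLaw t f {n | s j n = true} :=
  systems st3 Pool.Agent.Helper14.CF.CMS.main Pool.Agent.Helper47.CF.IRR.main
    Pool.Agent.Helper41.CF.DEN.main Pool.Agent.Helper13.CF.DIF.main Pool.Agent.Helper27.CF.ENM.main

end Pool.Agent.Helper79.CF
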