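import Mathlib
import Pool.Agent.Helper79.CF.Main2
import Pool.Graph.R_seed8.Cov.PNT

set_option autoImplicit false

/-!
# The set of the primes
-/

namespace Pool.Agent.Helper79.CF

open Finset Filter Topology MeasureTheory
open Pool.Agent.Helper88.EL (num Schnorr dgs ct dg Testable)

/-- the law for prime arguments: the number of the primes `p ≤ N` for which all
`⌊(1 + t i) f i (p)⌋` are primes, times `(log N) ^ (r + 1) / N`, tends to `1 / ∏ deg (f i)` -/
def PLaw {r : ℕ} (t : Fin r → ℝ) (f : Fin r → Polynomial ℤ) : Prop :=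
  Tendsto (fun N : ℕ => count {p | p.Prime ∧
    ∀ i, (⌊(1 + t i) * (((f i).eval (p : ℤ) : ℤ) : ℝ)⌋₊).Prime} N * (Real.log N) ^ (r + 1) / N) atTop
    (𝓝 (∏ i, (1 / ((f i).natDegree : ℝ))))

lemma count_primes (N : ℕ) : count {n | n.Prime} N = (Nat.primeCounting N : ℝ) := by
  classical
  rw [count_eq]
  unfold Pool.Agent.Q138.GS.ct
  rw [Nat.primeCounting, Nat.primeCounting', Nat.count_eq_card_filter_range]
  congr 2
  ext n
  simp only [mem_filter, mem_Icc, mem_range, Set.mem_ofPred_eq]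
  constructor
  · rintro ⟨⟨h1, h2⟩, h3⟩
    exact ⟨by omega, h3⟩
  · rintro ⟨h1, h2⟩
    exact ⟨⟨h2.one_lt.le, by omega⟩, h2⟩

lemma pnt : Tendsto (fun N : ℕ => count {n | n.Prime} N * Real.log N / N) atTop (𝓝 1) := by
  have h := Pool.Agent.Cov.PNT.pi_tendsto.comp (tendsto_natCast_atTop_atTop (R := ℝ))
  refine h.congr fun N => ?_
  simp only [Function.comp_apply, Nat.floor_natCast]
  rw [count_primes]

lemma ld_primes : LogDense {n | n.Prime} := by
  refine ⟨2, ?_⟩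
  have hl : Tendsto (fun n : ℕ => Real.log (n : ℝ)) atTop atTop :=
    Real.tendsto_log_atTop.comp tendsto_natCast_atTop_atTop
  filter_upwards [pnt.eventually_const_lt (show (1 / 2 : ℝ) < 1 by norm_num),
    hl.eventually_ge_atTop 2, eventually_gt_atTop 0] with N h1 h2 h3
  have hNp : (0 : ℝ) < N := by exact_mod_cast h3
  have hLp : 0 < Real.log N := by linarith
  rw [lt_div_iff₀ hNp] at h1
  rw [div_le_iff₀ (by positivity)]
  nlinarith [count_nonneg {n | n.Prime} N]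

lemma plaw_of_jlaw {r : ℕ} {t : Fin r → ℝ} {f : Fin r → Polynomial ℤ}
    (h : JLaw t f {n | n.Prime}) : PLaw t f := by
  have h1 := h.mul pnt
  rw [mul_one] at h1
  refine h1.congr' ?_
  filter_upwards [ld_pos ld_primes, eventually_gt_atTop 0] with N hN hN0
  have hNp : (0 : ℝ) < N := by exact_mod_cast hN0
  have e : {n : ℕ | n ∈ {n : ℕ | n.Prime} ∧ ∀ i, (⌊(1 + t i) *
      (((f i).eval (n : ℤ) : ℤ) : ℝ)⌋₊).Prime} = {p : ℕ | p.Prime ∧
      ∀ i, (⌊(1 + t i) * (((f i).eval (p : ℤ) : ℤ) : ℝ)⌋₊).Prime} := by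
    ext n
    simp
  have hN' : count {n : ℕ | n.Prime} N ≠ 0 := hN.ne'
  rw [pow_succ]
  field_simp

lemma comp_prime : Computable fun n : ℕ => decide n.Prime :=
  (Pool.Agent.Helper88.EL.primrec_prime.decide).to_comp

lemma law_to_jlaw {t : ℝ} {f : Polynomial ℤ} {S : Set ℕ} (h : Law t f S) :
    JLaw (fun _ : Fin 1 => t) (fun _ => f) S := by
  unfold JLaw
  simp only [Finset.univ_unique, Finset.prod_const, Finset.card_singleton, pow_one]
  refine h.congr fun N => ?_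
  congr 3
  ext n
  simp

/-- one Schnorr random multiplier -/
theorem schnorr_primes (b : ℕ → Bool) (hb : Schnorr b) (t : ℝ) (ht : Digits b t) (f : Polynomial ℤ)
    (hd : 1 ≤ f.natDegree) (hl : 0 < f.leadingCoeff) : PLaw (fun _ : Fin 1 => t) (fun _ => f) := by
  have h := (final2 Pool.Agent.Helper52.CF.TST.main Pool.Agent.Helper24.CF.CMP.main
    dev_all mea_all Pool.Agent.Helper74.CF.IDX.main
    Pool.Agent.Helper41.CF.SCL.main Pool.Agent.Helper27.CF.GRW.main Pool.Agent.Helper27.CF.ENM.main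
    Pool.Agent.Helper49.CF.REA.main).2.1 b hb t ht (fun n => decide n.Prime) comp_prime f hd hl
  have e : {n : ℕ | decide n.Prime = true} = {n | n.Prime} := by
    ext n
    simp
  rw [e] at h
  exact plaw_of_jlaw (law_to_jlaw (h.2 ld_primes))

/-- computable multipliers -/
theorem computable_primes (r : ℕ) (c : ℕ → ℕ → Bool) (k : ℕ) :
    ∃ (b : Fin r → ℕ → Bool) (t : Fin r → ℝ), (∀ i, Computable (b i)) ∧
      (∀ i, ∀ j < k, b i j = c i j) ∧ (∀ i, Digits (b i) (t i)) ∧ (∀ i, Irrational (t i)) ∧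
      ∀ f : Fin r → Polynomial ℤ, (∀ i, 1 ≤ (f i).natDegree ∧ 0 < (f i).leadingCoeff) → PLaw t f := by
  have hs : Computable₂ fun (_ : ℕ) (n : ℕ) => decide n.Prime := comp_prime.comp Computable.snd
  obtain ⟨b, t, h1, h2, h3, h3', h4⟩ := systems_main r _ hs c k
  refine ⟨b, t, h1, h2, h3, h3', fun f hf => ?_⟩
  have e : {n : ℕ | decide n.Prime = true} = {n | n.Prime} := by
    ext n
    simp
  have h5 := h4 0
  rw [e] at h5
  exact plaw_of_jlaw (h5 ld_primes f hf)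

/-- `α > 1` has Schnorr random binary digits -/
def RandomReal (α : ℝ) : Prop :=
  ∃ (k : ℕ) (b : ℕ → Bool) (t : ℝ), Schnorr b ∧ Digits b t ∧ α = 2 ^ k * (1 + t)

/-- `α ≥ 1` is a computable number -/
def ComputableReal (α : ℝ) : Prop :=
  ∃ (k : ℕ) (b : ℕ → Bool) (t : ℝ), Computable b ∧ Digits b t ∧ α = 2 ^ k * (1 + t)

/-- the law for prime arguments and multipliers `α i`: the number of the primes `p ≤ N` for which all
`⌊α i * f i (p)⌋` are primes, times `(log N) ^ (r + 1) / N`, tends to `1 / ∏ deg (f i)` -/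
def PrimeLaw {r : ℕ} (α : Fin r → ℝ) (f : Fin r → Polynomial ℤ) : Prop :=
  Tendsto (fun N : ℕ => count {p | p.Prime ∧
    ∀ i, (⌊α i * (((f i).eval (p : ℤ) : ℤ) : ℝ)⌋₊).Prime} N * (Real.log N) ^ (r + 1) / N) atTop
    (𝓝 (∏ i, (1 / ((f i).natDegree : ℝ))))

lemma primeLaw_of {r : ℕ} {t : Fin r → ℝ} {k : Fin r → ℕ} {f : Fin r → Polynomial ℤ}
    (h : PLaw t fun i => Polynomial.C (2 ^ k i) * f i) : PrimeLaw (fun i => 2 ^ k i * (1 + t i)) f := by
  unfold PLaw at h
  unfold PrimeLaw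
  have e1 : ∀ i, (Polynomial.C (2 ^ k i : ℤ) * f i).natDegree = (f i).natDegree := fun i =>
    Polynomial.natDegree_C_mul (by positivity)
  simp only [e1] at h
  refine h.congr fun N => ?_
  have e2 : ∀ (p : ℕ) (i : Fin r), (1 + t i) * (((Polynomial.C (2 ^ k i : ℤ) * f i).eval (p : ℤ) : ℤ) : ℝ) =
      2 ^ k i * (1 + t i) * (((f i).eval (p : ℤ) : ℤ) : ℝ) := by
    intro p i
    rw [Polynomial.eval_mul, Polynomial.eval_C]
    push_cast
    ring
  simp only [e2]

lemma cmul_ok {f : Polynomial ℤ} (k : ℕ) (hd : 1 ≤ f.natDegree) (hl : 0 < f.leadingCoeff) :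
    1 ≤ (Polynomial.C (2 ^ k : ℤ) * f).natDegree ∧ 0 < (Polynomial.C (2 ^ k : ℤ) * f).leadingCoeff := by
  rw [Polynomial.natDegree_C_mul (by positivity), Polynomial.leadingCoeff_mul, Polynomial.leadingCoeff_C]
  exact ⟨hd, by positivity⟩

theorem random_law {α : ℝ} (h : RandomReal α) (f : Polynomial ℤ) (hd : 1 ≤ f.natDegree)
    (hl : 0 < f.leadingCoeff) : PrimeLaw (fun _ : Fin 1 => α) fun _ => f := by
  obtain ⟨k, b, t, hb, ht, rfl⟩ := h
  have h1 := cmul_ok k hd hl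
  exact primeLaw_of (k := fun _ => k) (schnorr_primes b hb t ht _ h1.1 h1.2)

lemma digits_near {b c : ℕ → Bool} {t t0 : ℝ} {l : ℕ} (hb : Digits b t) (hc : Digits c t0)
    (h : ∀ j < l, b j = c j) : |t - t0| ≤ 1 / 2 ^ l := by
  have h1 := hb l
  have h2 := hc l
  rw [Pool.Agent.Helper88.EL.num_congr h] at h1
  have hp : (0 : ℝ) < 2 ^ l := by positivity
  rw [le_div_iff₀ hp]
  have e : |t - t0| * 2 ^ l = |(t - t0) * 2 ^ l| := by rw [abs_mul, abs_of_pos hp]
  rw [e, abs_le]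
  constructor <;> nlinarith

lemma locate {x : ℝ} (hx : 1 ≤ x) : ∃ (k : ℕ) (t : ℝ), 0 ≤ t ∧ t < 1 ∧ x = 2 ^ k * (1 + t) := by
  obtain ⟨k, hk1, hk2⟩ := exists_nat_pow_near hx (by norm_num : (1 : ℝ) < 2)
  refine ⟨k, x / 2 ^ k - 1, ?_, ?_, ?_⟩
  · rw [sub_nonneg, le_div_iff₀ (by positivity)]
    linarith
  · rw [sub_lt_iff_lt_add, div_lt_iff₀ (by positivity)]
    rw [pow_succ] at hk2
    linarith
  · field_simp
    ring

/-- computable multipliers in given intervals -/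
theorem computable_law (r : ℕ) (lo hi : Fin r → ℝ) (h : ∀ i, 1 ≤ lo i ∧ lo i < hi i) :
    ∃ α : Fin r → ℝ, (∀ i, lo i < α i ∧ α i < hi i ∧ ComputableReal (α i) ∧ Irrational (α i)) ∧
      ∀ f : Fin r → Polynomial ℤ, (∀ i, 1 ≤ (f i).natDegree ∧ 0 < (f i).leadingCoeff) → PrimeLaw α f := by
  classical
  have h1 : ∀ i, ∃ (k : ℕ) (t : ℝ), 0 ≤ t ∧ t < 1 ∧ (lo i + hi i) / 2 = 2 ^ k * (1 + t) := fun i =>
    locate (by linarith [(h i).1, (h i).2])
  choose k t0 ht0 ht1 hx using h1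
  have h2 : ∀ i, ∀ᶠ l : ℕ in atTop, 2 ^ k i * (1 / 2 ^ l) < (hi i - lo i) / 2 := by
    intro i
    have h3 : Tendsto (fun l : ℕ => (2 : ℝ) ^ k i * (1 / 2) ^ l) atTop (𝓝 (2 ^ k i * 0)) :=
      (tendsto_pow_atTop_nhds_zero_of_lt_one (by norm_num) (by norm_num)).const_mul _
    rw [mul_zero] at h3
    filter_upwards [h3.eventually_lt_const (show (0 : ℝ) < (hi i - lo i) / 2 by linarith [(h i).2])]
      with l hl
    rwa [one_div, ← inv_pow, ← one_div]
  obtain ⟨l, hl⟩ := (eventually_all.2 h2).exists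
  obtain ⟨b, t, hb1, hb2, hb3, hb4, hb5⟩ := computable_primes r
    (fun i => if hi : i < r then dgs (t0 ⟨i, hi⟩) else fun _ => false) l
  refine ⟨fun i => 2 ^ k i * (1 + t i), fun i => ?_, fun f hf => ?_⟩
  · have hd := digits_near (hb3 i) (Pool.Agent.Helper79.CF.digits_dgs (ht0 i) (ht1 i)) (l := l) (by
      intro j hj
      have := hb2 i j hj
      rw [dif_pos i.isLt] at this
      exact this)
    have hk : (0 : ℝ) < 2 ^ k i := by positivity
    have hd2 : |2 ^ k i * (1 + t i) - (lo i + hi i) / 2| < (hi i - lo i) / 2 := by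
      rw [hx i]
      have e : (2 : ℝ) ^ k i * (1 + t i) - 2 ^ k i * (1 + t0 i) = 2 ^ k i * (t i - t0 i) := by ring
      rw [e, abs_mul, abs_of_pos hk]
      exact lt_of_le_of_lt (mul_le_mul_of_nonneg_left hd hk.le) (hl i)
    rw [abs_lt] at hd2
    refine ⟨by linarith [hd2.1], by linarith [hd2.2], ⟨k i, b i, t i, hb1 i, hb3 i, rfl⟩, ?_⟩
    have h5 : Irrational (((2 ^ k i : ℕ) : ℝ) * (((1 : ℕ) : ℝ) + t i)) :=
      ((hb4 i).natCast_add 1).natCast_mul (by positivity)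
    have e : ((2 ^ k i : ℕ) : ℝ) * (((1 : ℕ) : ℝ) + t i) = 2 ^ k i * (1 + t i) := by push_cast; ring
    rwa [e] at h5
  · exact primeLaw_of (hb5 _ fun i => cmul_ok (k i) (hf i).1 (hf i).2)

/-- the law implies infinitely many primes -/
theorem PrimeLaw.inf {r : ℕ} {α : Fin r → ℝ} {f : Fin r → Polynomial ℤ} (h : PrimeLaw α f)
    (hf : ∀ i, 1 ≤ (f i).natDegree) :
    {p : ℕ | p.Prime ∧ ∀ i, (⌊α i * (((f i).eval (p : ℤ) : ℤ) : ℝ)⌋₊).Prime}.Infinite := by
  classical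
  intro hfin
  obtain ⟨n0, hn0⟩ := hfin.bddAbove
  have h0 : Tendsto (fun N : ℕ => count {p | p.Prime ∧
    ∀ i, (⌊α i * (((f i).eval (p : ℤ) : ℤ) : ℝ)⌋₊).Prime} N * (Real.log N) ^ (r + 1) / N) atTop
    (𝓝 0) := by
    have h1 := (log_div (r + 1)).const_mul ((n0 : ℝ) + 1)
    rw [mul_zero] at h1
    refine squeeze_zero' (Filter.Eventually.of_forall fun N => ?_) ?_ h1
    · have := Real.log_natCast_nonneg N
      have := count_nonneg {p : ℕ | p.Prime ∧
        ∀ i, (⌊α i * (((f i).eval (p : ℤ) : ℤ) : ℝ)⌋₊).Prime} N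
      positivity
    · filter_upwards with N
      have h2 := count_le_add (A := {p : ℕ | p.Prime ∧
        ∀ i, (⌊α i * (((f i).eval (p : ℤ) : ℤ) : ℝ)⌋₊).Prime}) (A' := ∅) (n0 := n0 + 1)
        (fun n hn hn' => absurd (hn0 hn') (by omega)) N
      have h3 : count (∅ : Set ℕ) N = 0 := by
        unfold count
        simp
      rw [h3, zero_add] at h2
      push_cast at h2
      have := Real.log_natCast_nonneg N
      rw [mul_div_assoc]
      exact mul_le_mul_of_nonneg_right h2 (by positivity)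
  have h1 := tendsto_nhds_unique h h0
  have h2 : 0 < ∏ i, (1 / ((f i).natDegree : ℝ)) := Finset.prod_pos fun i _ => by
    have : (0 : ℝ) < (f i).natDegree := by exact_mod_cast hf i
    positivity
  linarith

end Pool.Agent.Helper79.CF
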