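import Mathlib
import Pool.Agent.Helper79.CF.Pr

set_option autoImplicit false

/-!
# Multipliers close to `1`
-/

namespace Pool.Agent.Helper79.CF

open Finset Filter Topology MeasureTheory
open Pool.Agent.Helper88.EL (num Schnorr dgs ct dg Testable)

/-- the law for the multipliers `α i`, the polynomials `f i` and the set `S` -/
def SetLaw {r : ℕ} (α : Fin r → ℝ) (f : Fin r → Polynomial ℤ) (S : Set ℕ) : Prop :=
  Tendsto (fun N : ℕ => count {n | n ∈ S ∧
    ∀ i, (⌊α i * (((f i).eval (n : ℤ) : ℤ) : ℝ)⌋₊).Prime} N * (Real.log N) ^ r / count S N) atTop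
    (𝓝 (∏ i, (1 / ((f i).natDegree : ℝ))))

lemma setLaw_of {r : ℕ} {t : Fin r → ℝ} {k : Fin r → ℕ} {f : Fin r → Polynomial ℤ} {S : Set ℕ}
    (h : JLaw t (fun i => Polynomial.C (2 ^ k i) * f i) S) :
    SetLaw (fun i => 2 ^ k i * (1 + t i)) f S := by
  unfold JLaw at h
  unfold SetLaw
  have e1 : ∀ i, (Polynomial.C (2 ^ k i : ℤ) * f i).natDegree = (f i).natDegree := fun i =>
    Polynomial.natDegree_C_mul (by positivity)
  simp only [e1] at h
  refine h.congr fun N => ?_
  have e2 : ∀ (p : ℕ) (i : Fin r), (1 + t i) * (((Polynomial.C (2 ^ k i : ℤ) * f i).eval (p : ℤ) : ℤ) : ℝ) =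
      2 ^ k i * (1 + t i) * (((f i).eval (p : ℤ) : ℤ) : ℝ) := by
    intro p i
    rw [Polynomial.eval_mul, Polynomial.eval_C]
    push_cast
    ring
  simp only [e2]

/-- computable multipliers in given intervals, for a computable sequence of sets -/
theorem computable_sets (r : ℕ) (lo hi : Fin r → ℝ) (h : ∀ i, 1 ≤ lo i ∧ lo i < hi i)
    (s : ℕ → ℕ → Bool) (hs : Computable₂ s) :
    ∃ α : Fin r → ℝ, (∀ i, lo i < α i ∧ α i < hi i ∧ ComputableReal (α i) ∧ Irrational (α i)) ∧
      ∀ f : Fin r → Polynomial ℤ, (∀ i, 1 ≤ (f i).natDegree ∧ 0 < (f i).leadingCoeff) →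
        PrimeLaw α f ∧ SetLaw α f Set.univ ∧
        ∀ j, LogDense {n | s j n = true} → SetLaw α f {n | s j n = true} := by
  classical
  have h1 : ∀ i, ∃ (k : ℕ) (t : ℝ), 0 ≤ t ∧ t < 1 ∧ (lo i + hi i) / 2 = 2 ^ k * (1 + t) := fun i =>
    locate (by linarith [(h i).1, (h i).2])
  choose k t0 ht0 ht1 hx using h1
  have h2 : ∀ i, ∀ᶠ l : ℕ in atTop, 2 ^ k i * (1 / 2 ^ l) < (hi i - lo i) / 2 := by
    intro i
    have h3 : Tendsto (fun l : ℕ => (2 : ℝ) ^ k i * (1 / 2) ^ l) atTop (𝓝 (2 ^ k i * 0)) :=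
      (tendsto_pow_atTop_nhds_zero_of_lt_one (by norm_num) (by norm_num)).const_mul _
    rw [mul_zero] at h3
    filter_upwards [h3.eventually_lt_const (show (0 : ℝ) < (hi i - lo i) / 2 by linarith [(h i).2])]
      with l hl
    rwa [one_div, ← inv_pow, ← one_div]
  obtain ⟨l, hl⟩ := (eventually_all.2 h2).exists
  have hs2 : Computable₂ fun (i : ℕ) (n : ℕ) => (Nat.casesOn i (decide n.Prime) fun j =>
      (Nat.casesOn j true fun j => s j n : Bool) : Bool) := by
    have g : Computable₂ fun (z : (ℕ × ℕ) × ℕ) (j : ℕ) => s j z.1.2 :=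
      Computable₂.comp hs Computable.snd (Computable.snd.comp (Computable.fst.comp Computable.fst))
    have g2 : Computable₂ fun (z : ℕ × ℕ) (j : ℕ) => (Nat.casesOn j true fun j => s j z.2 : Bool) :=
      Computable.nat_casesOn Computable.snd (Computable.const true) g
    exact Computable.nat_casesOn Computable.fst (comp_prime.comp Computable.snd) g2
  obtain ⟨b, t, hb1, hb2, hb3, hb4, hb5⟩ := systems_main r _ hs2
    (fun i => if hi : i < r then dgs (t0 ⟨i, hi⟩) else fun _ => false) l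
  refine ⟨fun i => 2 ^ k i * (1 + t i), fun i => ?_, fun f hf => ?_⟩
  · have hd := digits_near (hb3 i) (Pool.Agent.Helper79.CF.digits_dgs (ht0 i) (ht1 i)) (l := l) (by
      intro j hj
      have := hb2 i j hj
      rw [dif_pos i.isLt] at this
      exact this)
    have hk : (0 : ℝ) < 2 ^ k i := by positivity
    have hd2 : |2 ^ k i * (1 + t i) - (lo i + hi i) / 2| < (hi i - lo i) / 2 := by
      rw [hx i]
      have e : (2 : ℝ) ^ k i * (1 + t i) - 2 ^ k i * (1 + t0 i) = 2 ^ k i * (t i - t0 i) := by ring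
      rw [e, abs_mul, abs_of_pos hk]
      exact lt_of_le_of_lt (mul_le_mul_of_nonneg_left hd hk.le) (hl i)
    rw [abs_lt] at hd2
    refine ⟨by linarith [hd2.1], by linarith [hd2.2], ⟨k i, b i, t i, hb1 i, hb3 i, rfl⟩, ?_⟩
    have h5 : Irrational (((2 ^ k i : ℕ) : ℝ) * (((1 : ℕ) : ℝ) + t i)) :=
      ((hb4 i).natCast_add 1).natCast_mul (by positivity)
    have e : ((2 ^ k i : ℕ) : ℝ) * (((1 : ℕ) : ℝ) + t i) = 2 ^ k i * (1 + t i) := by push_cast; ring
    rwa [e] at h5
  · have hf' := fun i => cmul_ok (k i) (hf i).1 (hf i).2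
    refine ⟨?_, ?_, fun j hj => ?_⟩
    · have h6 := hb5 0
      have e : {n : ℕ | (Nat.casesOn (0 : ℕ) (decide n.Prime) fun j =>
        (Nat.casesOn j true fun j => s j n : Bool) : Bool) = true} = {n | n.Prime} := by
        ext n
        simp
      rw [e] at h6
      exact primeLaw_of (plaw_of_jlaw (h6 ld_primes _ hf'))
    · have h6 := hb5 1
      have e : {n : ℕ | (Nat.casesOn (1 : ℕ) (decide n.Prime) fun j =>
        (Nat.casesOn j true fun j => s j n : Bool) : Bool) = true} = Set.univ := by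
        ext n
        simp
      rw [e] at h6
      refine setLaw_of (h6 ⟨0, Filter.Eventually.of_forall fun N => ?_⟩ _ hf')
      rw [pow_zero, div_one]
      unfold count
      simp
    · exact setLaw_of (hb5 (j + 2) hj _ hf')

end Pool.Agent.Helper79.CF
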