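import Mathlib
import Pool.Agent.Helper79.CF.Gen

set_option autoImplicit false

/-!
# Prime tuples for multipliers close to `1`
-/

namespace Pool.Agent.Helper79.CF

open Finset Filter Topology MeasureTheory

lemma lin_ok (h : ℤ) : 1 ≤ (Polynomial.X + Polynomial.C h : Polynomial ℤ).natDegree ∧
    0 < (Polynomial.X + Polynomial.C h : Polynomial ℤ).leadingCoeff := by
  rw [Polynomial.natDegree_X_add_C, Polynomial.leadingCoeff_X_add_C]
  exact ⟨le_rfl, one_pos⟩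

lemma lin_set {r : ℕ} (α : Fin r → ℝ) (h : Fin r → ℤ) :
    {p : ℕ | p.Prime ∧ ∀ i, (⌊α i * ((((Polynomial.X + Polynomial.C (h i) : Polynomial ℤ).eval
      (p : ℤ) : ℤ)) : ℝ)⌋₊).Prime} = {p : ℕ | p.Prime ∧ ∀ i, (⌊α i * ((p : ℝ) + h i)⌋₊).Prime} := by
  ext p
  simp

/-- shifted primes, one Schnorr random multiplier -/
theorem random_shifts {α : ℝ} (hα : RandomReal α) (h : ℤ) :
    {p : ℕ | p.Prime ∧ (⌊α * ((p : ℝ) + h)⌋₊).Prime}.Infinite ∧
    Tendsto (fun N : ℕ => count {p | p.Prime ∧ (⌊α * ((p : ℝ) + h)⌋₊).Prime} N * (Real.log N) ^ 2 / N)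
      atTop (𝓝 1) := by
  have h1 := random_law hα (Polynomial.X + Polynomial.C h) (lin_ok h).1 (lin_ok h).2
  have e : {p : ℕ | p.Prime ∧ ∀ _i : Fin 1, (⌊α * ((((Polynomial.X + Polynomial.C h : Polynomial ℤ).eval
      (p : ℤ) : ℤ)) : ℝ)⌋₊).Prime} = {p : ℕ | p.Prime ∧ (⌊α * ((p : ℝ) + h)⌋₊).Prime} := by
    ext p
    simp
  refine ⟨?_, ?_⟩
  · have h2 := h1.inf fun _ => (lin_ok h).1
    rwa [e] at h2
  · unfold PrimeLaw at h1
    rw [e] at h1
    simpa only [Polynomial.natDegree_X_add_C, Nat.cast_one, div_one, Finset.prod_const_one] using h1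

/-- shifted primes, computable multipliers close to `1` -/
theorem near_tuples (r : ℕ) (ε : ℝ) (hε : 0 < ε) : ∃ α : Fin r → ℝ,
    (∀ i, 1 < α i ∧ α i < 1 + ε ∧ ComputableReal (α i) ∧ Irrational (α i)) ∧
    ∀ h : Fin r → ℤ, {p : ℕ | p.Prime ∧ ∀ i, (⌊α i * ((p : ℝ) + h i)⌋₊).Prime}.Infinite ∧
      Tendsto (fun N : ℕ => count {p | p.Prime ∧ ∀ i, (⌊α i * ((p : ℝ) + h i)⌋₊).Prime} N *
        (Real.log N) ^ (r + 1) / N) atTop (𝓝 1) := by
  obtain ⟨α, h1, h2⟩ := computable_law r (fun _ => 1) (fun _ => 1 + ε) fun _ => ⟨le_rfl, by linarith⟩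
  refine ⟨α, h1, fun h => ?_⟩
  have h3 := h2 (fun i => Polynomial.X + Polynomial.C (h i)) fun i => lin_ok (h i)
  refine ⟨?_, ?_⟩
  · have h4 := h3.inf fun i => (lin_ok (h i)).1
    rwa [lin_set] at h4
  · unfold PrimeLaw at h3
    rw [lin_set] at h3
    simpa only [Polynomial.natDegree_X_add_C, Nat.cast_one, div_one, Finset.prod_const_one] using h3

end Pool.Agent.Helper79.CF
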